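import Pool.Agent.Helper53.PT.GoalsD

/-!
# MP_705522_gt, `q ∈ (2,4)`: `N.tau` satisfies `TauOK` (goal `GTAUN`)
-/

namespace Pool.Agent.Helper51.PT

open Pool.Agent.Helper53.PT

theorem frc_eq {α : Type} (n : ℕ) (f : ℕ → α) : N.frc n f = f n := by
  cases n <;> rfl

theorem mn_eq (a b : ℕ) : N.mn a b = min a b := by
  unfold N.mn
  rcases h : Nat.ble a b with _ | _
  · have h' : ¬ a ≤ b := fun hc => by
      rw [Nat.ble_eq_true_of_le hc] at h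
      exact absurd h (by decide)
    rw [Nat.min_def, if_neg h']
    rfl
  · have h' : a ≤ b := Nat.le_of_ble_eq_true h
    rw [Nat.min_def, if_pos h']
    rfl

theorem mn_cases (P : ℕ → Prop) {a b : ℕ} (ha : P a) (hb : P b) : P (N.mn a b) := by
  rw [mn_eq]
  rcases le_total a b with h | h
  · rw [min_eq_left h]
    exact ha
  · rw [min_eq_right h]
    exact hb

/-- `X < j * (X / j + 1)` in the reals -/
theorem lt_mul_div (X j : ℕ) (hj : 1 ≤ j) : (X : ℝ) ≤ j * ((Nat.succ (X / j) : ℕ) : ℝ) := by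
  have h : X ≤ j * Nat.succ (X / j) := (Nat.lt_mul_div_succ X (by omega)).le
  exact_mod_cast h

theorem sq_le {y : ℕ} (h : √(y : ℝ) ≤ N.sqU y) : (y : ℝ) ≤ (N.sqU y : ℝ) ^ 2 := by
  have h0 : (0 : ℝ) ≤ y := by positivity
  calc (y : ℝ) = √(y : ℝ) ^ 2 := (Real.sq_sqrt h0).symm
    _ ≤ (N.sqU y : ℝ) ^ 2 := by
        apply pow_le_pow_left₀ (Real.sqrt_nonneg _) h

/-- the first three cases -/
theorem tau_base (hsq : GSQ) (r j cap m0 m1 Q : ℕ) (hj : 1 ≤ j) :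
    TauOK r j (aR cap) (aR m0) (aR m1) ((Q : ℝ) / 2 ^ 52)
      (aR (N.mn cap (N.mn (Nat.succ (Nat.div m1 j)) (N.sqU (Nat.succ (Nat.div Q j)))))) := by
  apply mn_cases (fun t => TauOK r j (aR cap) (aR m0) (aR m1) ((Q : ℝ) / 2 ^ 52) (aR t))
  · exact Or.inl le_rfl
  · apply mn_cases (fun t => TauOK r j (aR cap) (aR m0) (aR m1) ((Q : ℝ) / 2 ^ 52) (aR t))
    · refine Or.inr (Or.inl ?_)
      have h := lt_mul_div m1 j hj
      unfold aR
      calc (m1 : ℝ) / 2 ^ 26 ≤ (j * ((Nat.succ (m1 / j) : ℕ) : ℝ)) / 2 ^ 26 := by gcongr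
        _ = _ := by
            rw [mul_div_assoc]
            rfl
    · refine Or.inr (Or.inr (Or.inl ?_))
      have h := lt_mul_div Q j hj
      have h2 := sq_le (hsq (Nat.succ (Q / j))).1
      have hj0 : (0 : ℝ) ≤ j := by positivity
      have h3 : (Q : ℝ) ≤ j * (N.sqU (Nat.succ (Nat.div Q j)) : ℝ) ^ 2 :=
        h.trans (mul_le_mul_of_nonneg_left h2 hj0)
      unfold aR
      calc (Q : ℝ) / 2 ^ 52 ≤ (j * (N.sqU (Nat.succ (Nat.div Q j)) : ℝ) ^ 2) / 2 ^ 52 := by gcongr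
        _ = j * ((N.sqU (Nat.succ (Nat.div Q j)) : ℝ) / 2 ^ 26) ^ 2 := by
            rw [div_pow, mul_div_assoc]
            norm_num

/-- the last case -/
theorem tau_last (hsq : GSQ) (r j cap m0 m1 Q : ℕ) (hj : 1 ≤ j) (hjr : j < r)
    (hQ : j * Q ≤ m0 * m0) :
    TauOK r j (aR cap) (aR m0) (aR m1) ((Q : ℝ) / 2 ^ 52)
      (aR (Nat.succ (Nat.div (Nat.add m0 (N.sqU (Nat.succ (Nat.div (Nat.mul (Nat.sub r j)
        (Nat.sub (Nat.mul r Q) (Nat.mul m0 m0))) j)))) r))) := by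
  set X : ℕ := (r - j) * (r * Q - m0 * m0) with hX
  set Y : ℕ := Nat.succ (X / j) with hY
  set S : ℕ := N.sqU Y with hS
  have hterm : Nat.succ (Nat.div (Nat.add m0 (N.sqU (Nat.succ (Nat.div (Nat.mul (Nat.sub r j)
        (Nat.sub (Nat.mul r Q) (Nat.mul m0 m0))) j)))) r) = Nat.succ ((m0 + S) / r) := rfl
  rw [hterm]
  set t : ℕ := Nat.succ ((m0 + S) / r) with ht
  have h1 : ((m0 + S : ℕ) : ℝ) ≤ r * (t : ℝ) := lt_mul_div (m0 + S) r (by omega)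
  push_cast at h1
  have h2 : (X : ℝ) ≤ j * (Y : ℝ) := lt_mul_div X j hj
  have h3 : (Y : ℝ) ≤ (S : ℝ) ^ 2 := sq_le (hsq Y).1
  have hS0 : (0 : ℝ) ≤ S := by positivity
  have hj0 : (0 : ℝ) ≤ j := by positivity
  have hrj : (0 : ℝ) ≤ (r : ℝ) - j := by
    have : (j : ℝ) ≤ r := by exact_mod_cast hjr.le
    linarith
  have hXr : ((r : ℝ) - j) * ((r : ℝ) * Q - (m0 : ℝ) ^ 2) ≤ (X : ℝ) := by
    have e1 : ((r - j : ℕ) : ℝ) = (r : ℝ) - j := by
      rw [Nat.cast_sub hjr.le]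
    have e2 : (r : ℝ) * Q - (m0 : ℝ) ^ 2 ≤ ((r * Q - m0 * m0 : ℕ) : ℝ) := by
      have h : r * Q ≤ (r * Q - m0 * m0) + m0 * m0 := by omega
      have h' : ((r * Q : ℕ) : ℝ) ≤ (((r * Q - m0 * m0) + m0 * m0 : ℕ) : ℝ) := by exact_mod_cast h
      push_cast at h'
      nlinarith [h']
    rw [hX, Nat.cast_mul, e1]
    exact mul_le_mul_of_nonneg_left e2 hrj
  refine Or.inr (Or.inr (Or.inr ⟨by exact_mod_cast hjr, ?_, ?_, ?_⟩))
  · have h : ((j * Q : ℕ) : ℝ) ≤ ((m0 * m0 : ℕ) : ℝ) := by exact_mod_cast hQ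
    push_cast at h
    unfold aR
    calc (j : ℝ) * ((Q : ℝ) / 2 ^ 52) = ((j : ℝ) * (Q : ℝ)) / 2 ^ 52 := by ring
      _ ≤ ((m0 : ℝ) * (m0 : ℝ)) / 2 ^ 52 := by gcongr
      _ = ((m0 : ℝ) / 2 ^ 26) ^ 2 := by
          rw [div_pow]
          norm_num
          ring
  · unfold aR
    calc (m0 : ℝ) / 2 ^ 26 ≤ (r * (t : ℝ)) / 2 ^ 26 := by
          gcongr
          linarith
      _ = r * ((t : ℝ) / 2 ^ 26) := by ring
  · have h4 : (S : ℝ) ≤ r * (t : ℝ) - m0 := by linarith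
    have h5 : (S : ℝ) ^ 2 ≤ (r * (t : ℝ) - m0) ^ 2 := pow_le_pow_left₀ hS0 h4 2
    have h6 : ((r : ℝ) - j) * ((r : ℝ) * Q - (m0 : ℝ) ^ 2) ≤ j * (r * (t : ℝ) - m0) ^ 2 := by
      refine hXr.trans (h2.trans (mul_le_mul_of_nonneg_left (h3.trans h5) hj0))
    unfold aR
    calc ((r : ℝ) - j) * ((r : ℝ) * ((Q : ℝ) / 2 ^ 52) - ((m0 : ℝ) / 2 ^ 26) ^ 2)
        = (((r : ℝ) - j) * ((r : ℝ) * Q - (m0 : ℝ) ^ 2)) / 2 ^ 52 := by
          rw [div_pow]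
          norm_num
          ring
      _ ≤ (j * (r * (t : ℝ) - m0) ^ 2) / 2 ^ 52 := by gcongr
      _ = j * (r * ((t : ℝ) / 2 ^ 26) - (m0 : ℝ) / 2 ^ 26) ^ 2 := by
          have : r * ((t : ℝ) / 2 ^ 26) - (m0 : ℝ) / 2 ^ 26 = (r * (t : ℝ) - m0) / 2 ^ 26 := by ring
          rw [this, div_pow]
          norm_num
          ring

theorem gTAUN : GTAUN := by
  intro hsq r j cap m0 m1 Q hj
  have hb := tau_base hsq r j cap m0 m1 Q hj
  unfold N.tau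
  rw [frc_eq]
  rcases h : Nat.ble r j with _ | _
  · have hjr : j < r := by
      by_contra hc
      rw [Nat.ble_eq_true_of_le (not_lt.mp hc)] at h
      exact absurd h (by decide)
    rcases h2 : Nat.ble (Nat.mul j Q) (Nat.mul m0 m0) with _ | _
    · exact hb
    · have hQ : j * Q ≤ m0 * m0 := Nat.le_of_ble_eq_true h2
      exact mn_cases (fun t => TauOK r j (aR cap) (aR m0) (aR m1) ((Q : ℝ) / 2 ^ 52) (aR t)) hb
        (tau_last hsq r j cap m0 m1 Q hj hjr hQ)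
  · exact hb

end Pool.Agent.Helper51.PT
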